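import Pool.Agent.H7.DInf.Defs

set_option autoImplicit false

open MeasureTheory Filter Topology Set ProbabilityTheory
open scoped ENNReal NNReal unitInterval

namespace Pool.Agent.H7.DInf

/-- existence of an i.i.d. sequence of geometric variables on `[0,1]` -/
lemma exists_J : ∃ J : ℕ → I → ℕ, (∀ n, Measurable (J n)) ∧
    (∀ n m, n ≠ m → IndepFun (J n) (J m) (volume : Measure I)) ∧
    ∀ n m, (volume : Measure I).real (J n ⁻¹' {m}) = (1 / 2) ^ (m + 1) := by
  let p : I := ⟨1 / 2, by norm_num, by norm_num⟩
  have hp : p ≠ 0 := by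
    intro h
    have := congrArg Subtype.val h
    norm_num [p] at this
  obtain ⟨f, hf, hmap⟩ := Measure.exists_measurable_map_eq
    (Measure.infinitePi (fun _ : ℕ => geometricMeasure p))
  refine ⟨fun n t => f t n, fun n => by fun_prop, ?_, ?_⟩
  · intro n m hnm
    have h1 : iIndepFun (fun (i : ℕ) (ω : ℕ → ℕ) => ω i)
        (Measure.infinitePi (fun _ : ℕ => geometricMeasure p)) :=
      iIndepFun_infinitePi (X := fun _ (x : ℕ) => x) (fun _ => measurable_id)
    have h2 := h1.indepFun hnm
    rw [indepFun_iff_measure_inter_preimage_eq_mul] at h2 ⊢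
    intro s t hs ht
    have h3 := h2 s t hs ht
    rw [← hmap] at h3
    rw [Measure.map_apply hf (((measurable_pi_apply n) hs).inter ((measurable_pi_apply m) ht)),
      Measure.map_apply hf ((measurable_pi_apply n) hs),
      Measure.map_apply hf ((measurable_pi_apply m) ht)] at h3
    exact h3
  · intro n m
    have h1 : (volume : Measure I).map (fun t => f t n) = geometricMeasure p := by
      have : (fun t => f t n) = (fun ω : ℕ → ℕ => ω n) ∘ f := rfl
      rw [this, ← Measure.map_map (by fun_prop) hf, hmap, Measure.infinitePi_map_eval]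
    have h2 : (volume : Measure I).real ((fun t => f t n) ⁻¹' {m}) = (geometricMeasure p).real {m} := by
      rw [← h1, map_measureReal_apply (by fun_prop) (measurableSet_singleton m)]
    rw [h2, geometricMeasure_real_singleton hp]
    simp only [p]
    norm_num
    ring

section var

variable {J : ℕ → I → ℕ} (hJm : ∀ n, Measurable (J n))
  (hJi : ∀ n m, n ≠ m → IndepFun (J n) (J m) (volume : Measure I))
  (hJp : ∀ n m, (volume : Measure I).real (J n ⁻¹' {m}) = (1 / 2) ^ (m + 1))

/-- the set `J_n = m` -/
def ev (J : ℕ → I → ℕ) (n m : ℕ) : Set I := J n ⁻¹' {m}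

/-- probability -/
noncomputable def pr (m : ℕ) : ℝ := (1 / 2) ^ (m + 1)

lemma pr_pos (m : ℕ) : 0 < pr m := by unfold pr; positivity
lemma pr_le_one (m : ℕ) : pr m ≤ 1 := by
  unfold pr; exact pow_le_one₀ (by norm_num) (by norm_num)

/-- `1_{J_n = m}` -/
noncomputable def ind (J : ℕ → I → ℕ) (n m : ℕ) (s : I) : ℝ := (ev J n m).indicator (fun _ => 1) s

include hJm in
lemma ev_meas (n m : ℕ) : MeasurableSet (ev J n m) := (hJm n) (measurableSet_singleton m)

include hJm in
lemma ind_meas (n m : ℕ) : Measurable (ind J n m) := by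
  unfold ind
  exact measurable_const.indicator (ev_meas hJm n m)

lemma ind_nonneg (n m : ℕ) (s : I) : 0 ≤ ind J n m s := indicator_nonneg (fun _ _ => zero_le_one) _

lemma ind_le_one (n m : ℕ) (s : I) : ind J n m s ≤ 1 :=
  indicator_le_self' (fun _ _ => zero_le_one) _

lemma ind_sq (n m : ℕ) (s : I) : ind J n m s ^ 2 = ind J n m s := by
  unfold ind
  by_cases h : s ∈ ev J n m
  · simp [indicator_of_mem h]
  · simp [indicator_of_notMem h]

include hJm hJp in
lemma ind_int (n m : ℕ) : ∫ s, ind J n m s = pr m := by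
  unfold ind
  rw [integral_indicator (ev_meas hJm n m)]
  simp only [integral_const, smul_eq_mul, mul_one]
  rw [measureReal_restrict_apply_univ]
  exact hJp n m

include hJm in
lemma ind_integrable (n m : ℕ) : Integrable (ind J n m) :=
  Integrable.of_bound (ind_meas hJm n m).aestronglyMeasurable 1
    (Eventually.of_forall fun s => by
      rw [Real.norm_of_nonneg (ind_nonneg n m s)]; exact ind_le_one n m s)

include hJm hJi hJp in
/-- variance of linear combination -/
lemma var_sum (m : ℕ) (F : Finset ℕ) (a : ℕ → ℝ) :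
    ∫ s, (∑ n ∈ F, a n * (ind J n m s - pr m)) ^ 2 ≤ pr m * ∑ n ∈ F, a n ^ 2 := by
  have hcross : ∀ n n' : ℕ, ∫ s, (ind J n m s - pr m) * (ind J n' m s - pr m) =
      if n = n' then pr m - pr m ^ 2 else 0 := by
    intro n n'
    have e1 : ∀ s, (ind J n m s - pr m) * (ind J n' m s - pr m) =
        ind J n m s * ind J n' m s - pr m * ind J n m s - pr m * ind J n' m s + pr m ^ 2 := by
      intro s; ring
    have hprod : Integrable (fun s => ind J n m s * ind J n' m s) :=
      Integrable.of_bound ((ind_meas hJm n m).mul (ind_meas hJm n' m)).aestronglyMeasurable 1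
        (Eventually.of_forall fun s => by
          have := ind_nonneg (J := J) n m s; have := ind_nonneg (J := J) n' m s
          rw [Real.norm_of_nonneg (by positivity)]
          calc _ ≤ (1 : ℝ) * 1 := mul_le_mul (ind_le_one n m s) (ind_le_one n' m s) (by positivity) zero_le_one
            _ = 1 := one_mul 1)
    have i1 := (ind_integrable hJm n m).const_mul (pr m)
    have i2 := (ind_integrable hJm n' m).const_mul (pr m)
    simp_rw [e1]
    rw [integral_add (f := fun s => ind J n m s * ind J n' m s - pr m * ind J n m s -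
        pr m * ind J n' m s) (g := fun _ => pr m ^ 2) ((hprod.sub i1).sub i2) (integrable_const _),
      integral_sub (f := fun s => ind J n m s * ind J n' m s - pr m * ind J n m s)
        (g := fun s => pr m * ind J n' m s) (hprod.sub i1) i2,
      integral_sub hprod i1, integral_const_mul, integral_const_mul, ind_int hJm hJp, ind_int hJm hJp]
    have hc : ∫ (_ : I), pr m ^ 2 = pr m ^ 2 := by simp
    rw [hc]
    by_cases h : n = n'
    · subst h
      rw [if_pos rfl]
      have : ∀ s, ind J n m s * ind J n m s = ind J n m s := by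
        intro s; have := ind_sq (J := J) n m s; rw [sq] at this; exact this
      simp_rw [this]
      rw [ind_int hJm hJp]; ring
    · rw [if_neg h]
      have h1 := hJi n n' h
      have h2 : ∫ s, ind J n m s * ind J n' m s = pr m * pr m := by
        have hi : IndepFun (ind J n m) (ind J n' m) (volume : Measure I) := by
          have e : ∀ k, ind J k m = (fun x : ℕ => if x = m then (1 : ℝ) else 0) ∘ J k := by
            intro k
            funext s
            unfold ind ev
            simp only [Function.comp]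
            by_cases hk : J k s = m
            · rw [if_pos hk, indicator_of_mem (by exact hk)]
            · rw [if_neg hk, indicator_of_notMem (by exact hk)]
          rw [e n, e n']
          exact h1.comp (measurable_of_countable _) (measurable_of_countable _)
        have := hi.integral_fun_mul_eq_mul_integral (ind_meas hJm n m).aestronglyMeasurable
          (ind_meas hJm n' m).aestronglyMeasurable
        rw [this, ind_int hJm hJp, ind_int hJm hJp]
      rw [h2]; ring
  have hint : ∀ n n' : ℕ, Integrable (fun s => (a n * (ind J n m s - pr m)) * (a n' * (ind J n' m s - pr m))) := by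
    intro n n'
    have hb : ∀ k s, |ind J k m s - pr m| ≤ 1 := by
      intro k s
      have := ind_nonneg (J := J) k m s; have := ind_le_one (J := J) k m s
      have := pr_pos m; have := pr_le_one m
      rw [abs_le]; constructor <;> linarith
    refine Integrable.of_bound (C := |a n| * |a n'|) ?_ (Eventually.of_forall fun s => ?_)
    · exact (((ind_meas hJm n m).sub_const _).const_mul _ |>.mul
        (((ind_meas hJm n' m).sub_const _).const_mul _)).aestronglyMeasurable
    · rw [Real.norm_eq_abs, abs_mul, abs_mul, abs_mul]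
      have h1 := hb n s; have h2 := hb n' s
      have : |a n| * |ind J n m s - pr m| * (|a n'| * |ind J n' m s - pr m|) =
        |a n| * |a n'| * (|ind J n m s - pr m| * |ind J n' m s - pr m|) := by ring
      rw [this]
      calc _ ≤ |a n| * |a n'| * (1 * 1) :=
            mul_le_mul_of_nonneg_left (mul_le_mul h1 h2 (abs_nonneg _) zero_le_one) (by positivity)
        _ = _ := by ring
  have e2 : ∀ s, (∑ n ∈ F, a n * (ind J n m s - pr m)) ^ 2 =
      ∑ n ∈ F, ∑ n' ∈ F, (a n * (ind J n m s - pr m)) * (a n' * (ind J n' m s - pr m)) := by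
    intro s; rw [sq, Finset.sum_mul_sum]
  simp_rw [e2]
  rw [integral_finsetSum _ (fun n _ => integrable_finsetSum _ (fun n' _ => hint n n'))]
  have e3 : ∀ n ∈ F, ∫ s, ∑ n' ∈ F, (a n * (ind J n m s - pr m)) * (a n' * (ind J n' m s - pr m)) =
      a n ^ 2 * (pr m - pr m ^ 2) := by
    intro n hn
    rw [integral_finsetSum _ (fun n' _ => hint n n')]
    have e4 : ∀ n' ∈ F, ∫ s, (a n * (ind J n m s - pr m)) * (a n' * (ind J n' m s - pr m)) =
        if n = n' then a n ^ 2 * (pr m - pr m ^ 2) else 0 := by
      intro n' _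
      have : ∀ s, (a n * (ind J n m s - pr m)) * (a n' * (ind J n' m s - pr m)) =
        (a n * a n') * ((ind J n m s - pr m) * (ind J n' m s - pr m)) := by intro s; ring
      simp_rw [this]
      rw [integral_const_mul, hcross]
      split_ifs with h
      · subst h; ring
      · ring
    rw [Finset.sum_congr rfl e4, Finset.sum_ite_eq, if_pos hn]
  rw [Finset.sum_congr rfl e3, ← Finset.sum_mul, mul_comm]
  have hp := pr_pos m
  have hS : 0 ≤ ∑ n ∈ F, a n ^ 2 := Finset.sum_nonneg fun _ _ => sq_nonneg _
  nlinarith [mul_nonneg (sq_nonneg (pr m)) hS]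

/-- the space `L¹[0,1]` -/
abbrev X1 : Type := Lp ℝ 1 (volume : Measure I)

/-- the centered indicator as an element of `L¹` -/
noncomputable def vv (hJm : ∀ n, Measurable (J n)) (n m : ℕ) : X1 :=
  indicatorConstLp 1 (ev_meas hJm n m) (measure_ne_top _ _) (1 : ℝ) -
    pr m • indicatorConstLp 1 MeasurableSet.univ (measure_ne_top _ _) (1 : ℝ)

lemma vv_coe (n m : ℕ) : (vv hJm n m : I → ℝ) =ᵐ[volume] fun s => ind J n m s - pr m := by
  unfold vv
  filter_upwards [Lp.coeFn_sub (indicatorConstLp 1 (ev_meas hJm n m) (measure_ne_top volume _) (1 : ℝ))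
      (pr m • indicatorConstLp 1 MeasurableSet.univ (measure_ne_top volume _) (1 : ℝ)),
    Lp.coeFn_smul (pr m) (indicatorConstLp 1 (μ := (volume : Measure I)) MeasurableSet.univ (measure_ne_top volume _) (1 : ℝ)),
    indicatorConstLp_coeFn (p := 1) (hs := ev_meas hJm n m) (hμs := measure_ne_top volume _) (c := (1 : ℝ)),
    indicatorConstLp_coeFn (p := 1) (μ := (volume : Measure I)) (hs := MeasurableSet.univ)
      (hμs := measure_ne_top volume _) (c := (1 : ℝ))] with s h1 h2 h3 h4
  rw [h1, Pi.sub_apply, h2, Pi.smul_apply, h3, h4]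
  simp [ind]

lemma coeFn_sum' (F : Finset ℕ) (u : ℕ → X1) :
    ((∑ n ∈ F, u n : X1) : I → ℝ) =ᵐ[volume] ∑ n ∈ F, (u n : I → ℝ) := by
  induction F using Finset.induction_on with
  | empty => simpa using Lp.coeFn_zero ℝ 1 volume
  | insert a F ha ih =>
    rw [Finset.sum_insert ha, Finset.sum_insert ha]
    exact (Lp.coeFn_add _ _).trans (EventuallyEq.rfl.add ih)

include hJi hJp in
/-- Bessel-type bound -/
lemma bessel (m : ℕ) (φ : X1 →L[ℝ] ℝ) (F : Finset ℕ) :
    ∑ n ∈ F, φ (vv hJm n m) ^ 2 ≤ ‖φ‖ ^ 2 := by
  set a : ℕ → ℝ := fun n => φ (vv hJm n m) with ha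
  set S : ℝ := ∑ n ∈ F, a n ^ 2 with hS
  have hS0 : 0 ≤ S := Finset.sum_nonneg fun _ _ => sq_nonneg _
  set G : X1 := ∑ n ∈ F, a n • vv hJm n m with hG
  have hφG : φ G = S := by
    rw [hG, map_sum, hS]
    refine Finset.sum_congr rfl fun n _ => ?_
    rw [map_smul, smul_eq_mul, sq]
  have hGcoe : (G : I → ℝ) =ᵐ[volume] fun s => ∑ n ∈ F, a n * (ind J n m s - pr m) := by
    have h1 : ∀ n ∈ F, (((a n) • vv hJm n m : X1) : I → ℝ) =ᵐ[volume] fun s => a n * (ind J n m s - pr m) := by
      intro n _
      filter_upwards [Lp.coeFn_smul (a n) (vv hJm n m), vv_coe hJm n m] with s h1 h2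
      rw [h1, Pi.smul_apply, h2, smul_eq_mul]
    have h2 : (G : I → ℝ) =ᵐ[volume] ∑ n ∈ F, (((a n) • vv hJm n m : X1) : I → ℝ) :=
      coeFn_sum' F (fun n => a n • vv hJm n m)
    have h3 : ∀ᵐ s : I, ∀ n ∈ F, (((a n) • vv hJm n m : X1) : I → ℝ) s = a n * (ind J n m s - pr m) :=
      (ae_ball_iff F.countable_toSet).2 (fun n hn => h1 n hn)
    filter_upwards [h2, h3] with s h4 h5
    rw [h4, Finset.sum_apply]
    exact Finset.sum_congr rfl fun n hn => h5 n hn
  have hnorm : ‖G‖ ≤ Real.sqrt S := by
    rw [L1.norm_eq_integral_norm]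
    have h1 : ∫ s, ‖G s‖ = ∫ s, |∑ n ∈ F, a n * (ind J n m s - pr m)| := by
      apply integral_congr_ae
      filter_upwards [hGcoe] with s h
      rw [h, Real.norm_eq_abs]
    rw [h1]
    rcases hS0.eq_or_lt with h0 | h0
    · have hz : ∀ n ∈ F, a n = 0 := by
        intro n hn
        have := (Finset.sum_eq_zero_iff_of_nonneg (fun i _ => sq_nonneg (a i))).1 (hS ▸ h0.symm) n hn
        exact pow_eq_zero_iff (two_ne_zero) |>.1 this
      have : ∀ s, |∑ n ∈ F, a n * (ind J n m s - pr m)| = 0 := by
        intro s
        rw [Finset.sum_eq_zero (fun n hn => by rw [hz n hn, zero_mul]), abs_zero]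
      simp_rw [this]
      simp
    · set r := Real.sqrt S with hr
      have hr0 : 0 < r := Real.sqrt_pos.2 h0
      have hrS : r ^ 2 = S := Real.sq_sqrt hS0
      have hmeas : Measurable fun s => ∑ n ∈ F, a n * (ind J n m s - pr m) :=
        Finset.measurable_sum _ fun n _ => ((ind_meas hJm n m).sub_const _).const_mul _
      have hbd : ∀ s, |∑ n ∈ F, a n * (ind J n m s - pr m)| ≤ ∑ n ∈ F, |a n| := by
        intro s
        refine (Finset.abs_sum_le_sum_abs _ _).trans (Finset.sum_le_sum fun n _ => ?_)
        rw [abs_mul]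
        have := ind_nonneg (J := J) n m s; have := ind_le_one (J := J) n m s
        have := pr_pos m; have := pr_le_one m
        have h2 : |ind J n m s - pr m| ≤ 1 := by rw [abs_le]; constructor <;> linarith
        calc _ ≤ |a n| * 1 := mul_le_mul_of_nonneg_left h2 (abs_nonneg _)
          _ = _ := mul_one _
      have hsq : Integrable fun s => (∑ n ∈ F, a n * (ind J n m s - pr m)) ^ 2 :=
        Integrable.of_bound (hmeas.pow_const 2).aestronglyMeasurable ((∑ n ∈ F, |a n|) ^ 2)
          (Eventually.of_forall fun s => by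
            rw [Real.norm_eq_abs, abs_pow]
            exact pow_le_pow_left₀ (abs_nonneg _) (hbd s) 2)
      have habs : Integrable fun s => |∑ n ∈ F, a n * (ind J n m s - pr m)| :=
        Integrable.of_bound (hmeas.abs).aestronglyMeasurable (∑ n ∈ F, |a n|)
          (Eventually.of_forall fun s => by
            rw [Real.norm_eq_abs, abs_abs]
            exact hbd s)
      have h2 : ∫ s, |∑ n ∈ F, a n * (ind J n m s - pr m)| ≤
          ∫ s, ((∑ n ∈ F, a n * (ind J n m s - pr m)) ^ 2 * (1 / (2 * r)) + r / 2) := by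
        refine integral_mono habs ((hsq.mul_const _).add (integrable_const _)) fun s => ?_
        set x := ∑ n ∈ F, a n * (ind J n m s - pr m)
        have : x ^ 2 * (1 / (2 * r)) + r / 2 - |x| = (|x| - r) ^ 2 / (2 * r) := by
          rw [← sq_abs x]; field_simp; ring
        have h3 : 0 ≤ (|x| - r) ^ 2 / (2 * r) := by positivity
        show |x| ≤ x ^ 2 * (1 / (2 * r)) + r / 2
        linarith
      refine h2.trans ?_
      rw [integral_add (f := fun s => (∑ n ∈ F, a n * (ind J n m s - pr m)) ^ 2 * (1 / (2 * r)))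
        (g := fun _ => r / 2) (hsq.mul_const _) (integrable_const _), integral_mul_const]
      have h4 := var_sum hJm hJi hJp m F a
      have h5 : ∫ (_ : I), r / 2 = r / 2 := by simp
      rw [h5]
      have h6 : ∫ s, (∑ n ∈ F, a n * (ind J n m s - pr m)) ^ 2 ≤ S := by
        refine h4.trans ?_
        have := pr_le_one m
        nlinarith
      calc _ ≤ S * (1 / (2 * r)) + r / 2 := by
            have : 0 ≤ 1 / (2 * r) := by positivity
            nlinarith
        _ = r := by rw [← hrS]; field_simp; ring
  have h1 : S ≤ ‖φ‖ * Real.sqrt S := by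
    calc S = φ G := hφG.symm
      _ ≤ ‖φ G‖ := le_abs_self _
      _ ≤ ‖φ‖ * ‖G‖ := φ.le_opNorm G
      _ ≤ _ := mul_le_mul_of_nonneg_left hnorm (norm_nonneg _)
  have h2 : (Real.sqrt S) ^ 2 = S := Real.sq_sqrt hS0
  have h3 : Real.sqrt S ≤ ‖φ‖ := by
    rcases (Real.sqrt_nonneg S).eq_or_lt with h | h
    · rw [← h]; exact norm_nonneg _
    · nlinarith
  rw [← h2]
  exact pow_le_pow_left₀ (Real.sqrt_nonneg S) h3 2

include hJi hJp in
lemma weak_null (m : ℕ) (φ : X1 →L[ℝ] ℝ) : Tendsto (fun n => φ (vv hJm n m)) atTop (𝓝 0) := by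
  have h1 : Summable fun n => φ (vv hJm n m) ^ 2 :=
    summable_of_sum_le (fun n => sq_nonneg _) (fun F => bessel hJm hJi hJp m φ F)
  have h2 := h1.tendsto_atTop_zero
  have h3 : Tendsto (fun n => Real.sqrt (φ (vv hJm n m) ^ 2)) atTop (𝓝 (Real.sqrt 0)) :=
    (Real.continuous_sqrt.tendsto _).comp h2
  simp_rw [Real.sqrt_sq_eq_abs, Real.sqrt_zero] at h3
  exact (tendsto_zero_iff_abs_tendsto_zero _).2 h3

include hJm hJi hJp in
/-- Chebyshev: with at least `2 / p` indices the union of the events has probability at least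
one half -/
lemma union_half (m : ℕ) (F : Finset ℕ) (hF : 2 ≤ (F.card : ℝ) * pr m) :
    (volume : Measure I).real (⋃ n ∈ F, ev J n m)ᶜ ≤ 1 / 2 := by
  set N : ℝ := (F.card : ℝ) with hN
  set C := (⋃ n ∈ F, ev J n m)ᶜ with hC
  have hCm : MeasurableSet C :=
    (Finset.measurableSet_biUnion F fun n _ => ev_meas hJm n m).compl
  have h1 := var_sum hJm hJi hJp m F (fun _ => 1)
  simp only [one_pow, one_mul, Finset.sum_const, nsmul_eq_mul, mul_one] at h1
  rw [← hN] at h1
  have hp := pr_pos m
  have hmeas : Measurable fun s => ∑ n ∈ F, (ind J n m s - pr m) :=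
    Finset.measurable_sum _ fun n _ => ((ind_meas hJm n m).sub_const _)
  have hsq : Integrable fun s => (∑ n ∈ F, (ind J n m s - pr m)) ^ 2 :=
    Integrable.of_bound (hmeas.pow_const 2).aestronglyMeasurable (N ^ 2)
      (Eventually.of_forall fun s => by
        rw [Real.norm_eq_abs, abs_pow]
        refine pow_le_pow_left₀ (abs_nonneg _) ?_ 2
        refine (Finset.abs_sum_le_sum_abs _ _).trans ?_
        calc ∑ n ∈ F, |ind J n m s - pr m| ≤ ∑ n ∈ F, (1 : ℝ) := Finset.sum_le_sum fun n _ => by
              have := ind_nonneg (J := J) n m s; have := ind_le_one (J := J) n m s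
              have := pr_pos m; have := pr_le_one m
              rw [abs_le]; constructor <;> linarith
          _ = N := by simp [hN])
  have h2 : (volume : Measure I).real C * (N * pr m) ^ 2 ≤ ∫ s, (∑ n ∈ F, (ind J n m s - pr m)) ^ 2 := by
    calc (volume : Measure I).real C * (N * pr m) ^ 2 = ∫ s in C, (N * pr m) ^ 2 := by
          rw [setIntegral_const, smul_eq_mul]
      _ ≤ ∫ s in C, (∑ n ∈ F, (ind J n m s - pr m)) ^ 2 := by
          refine setIntegral_mono_on (integrable_const _) hsq.integrableOn hCm fun s hs => ?_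
          have : ∀ n ∈ F, ind J n m s - pr m = - pr m := by
            intro n hn
            have hs' : s ∉ ev J n m := by
              intro h
              apply hs
              simp only [mem_iUnion]
              exact ⟨n, hn, h⟩
            unfold ind
            rw [indicator_of_notMem hs', zero_sub]
          rw [Finset.sum_congr rfl this, Finset.sum_const, nsmul_eq_mul, ← hN]
          apply le_of_eq; ring
      _ ≤ _ := setIntegral_le_integral hsq (Eventually.of_forall fun s => sq_nonneg _)
  have h3 : (volume : Measure I).real C * (N * pr m) ^ 2 ≤ pr m * N := h2.trans h1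
  have h4 : 0 < N * pr m := by linarith
  have h5 : (volume : Measure I).real C * (N * pr m) ≤ 1 := by
    by_contra hcon
    push Not at hcon
    have := mul_lt_mul_of_pos_right hcon h4
    nlinarith
  have h6 : 0 ≤ (volume : Measure I).real C := measureReal_nonneg
  nlinarith

end var

end Pool.Agent.H7.DInf
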