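import Mathlib

set_option autoImplicit false

open MeasureTheory Filter Topology
open scoped ENNReal NNReal

namespace Pool.Agent.H7.DInf

/-- Property `(D_p)` of a real Banach space `X`: every sequence of strongly measurable functions
`f_n : [0,1] → X` that is bounded in `L^p([0,1],X)` and converges scalarly in measure to `0` has a
subsequence converging scalarly to `0` almost everywhere. -/
def PropertyD (p : ℝ≥0∞) (X : Type*) [NormedAddCommGroup X] [NormedSpace ℝ X] : Prop :=
  ∀ f : ℕ → unitInterval → X,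
    (∀ n, AEStronglyMeasurable (f n) volume) →
    (∃ C : ℝ≥0, ∀ n, eLpNorm (f n) p volume ≤ C) →
    (∀ φ : X →L[ℝ] ℝ, TendstoInMeasure volume (fun n t => φ (f n t)) atTop (fun _ => (0 : ℝ))) →
    ∃ k : ℕ → ℕ, StrictMono k ∧
      ∀ φ : X →L[ℝ] ℝ, ∀ᵐ t : unitInterval, Tendsto (fun i => φ (f (k i) t)) atTop (𝓝 (0 : ℝ))

end Pool.Agent.H7.DInf
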