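import Pool.Agent.H7.DInf.Basic

set_option autoImplicit false

open MeasureTheory Filter Topology Set ProbabilityTheory
open scoped ENNReal NNReal unitInterval

namespace Pool.Agent.H7.DInf

section main

variable {J : ℕ → I → ℕ} (hJm : ∀ n, Measurable (J n))
  (hJi : ∀ n m, n ≠ m → IndepFun (J n) (J m) (volume : Measure I))
  (hJp : ∀ n m, (volume : Measure I).real (J n ⁻¹' {m}) = (1 / 2) ^ (m + 1))

/-- the values of the functions -/
noncomputable def hh (hJm : ∀ n, Measurable (J n)) (n j : ℕ) : X1 :=
  (pr (3 * j + 3))⁻¹ • vv hJm n (3 * j + 3)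

/-- the counterexample sequence -/
noncomputable def ff (hJm : ∀ n, Measurable (J n)) (n : ℕ) (t : I) : X1 := hh hJm n (J n t)

lemma ff_meas (n : ℕ) : StronglyMeasurable (ff hJm n) :=
  (StronglyMeasurable.of_discrete (f := hh hJm n)).comp_measurable (hJm n)

include hJp in
lemma vv_norm_le (n m : ℕ) : ‖vv hJm n m‖ ≤ 2 * pr m := by
  unfold vv
  refine (norm_sub_le _ _).trans ?_
  have hp := pr_pos m
  rw [norm_smul, Real.norm_of_nonneg hp.le, norm_indicatorConstLp one_ne_zero ENNReal.one_ne_top,
    norm_indicatorConstLp one_ne_zero ENNReal.one_ne_top]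
  have : (volume : Measure I).real (ev J n m) = pr m := hJp n m
  rw [this]
  simp
  linarith

include hJp in
lemma ff_norm_le (n : ℕ) (t : I) : ‖ff hJm n t‖ ≤ 2 := by
  unfold ff hh
  rw [norm_smul, norm_inv, Real.norm_of_nonneg (pr_pos _).le]
  have h1 := vv_norm_le hJm hJp n (3 * J n t + 3)
  have h2 := pr_pos (3 * J n t + 3)
  rw [inv_mul_le_iff₀ h2]
  linarith

include hJm hJp in
lemma tail (n M : ℕ) : (volume : Measure I).real {t | M < J n t} = (1 / 2) ^ (M + 1) := by
  have h1 : {t | M < J n t} = (⋃ m ∈ Finset.range (M + 1), J n ⁻¹' {m})ᶜ := by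
    ext t
    simp only [mem_ofPred_eq, mem_compl_iff, mem_iUnion, Finset.mem_range, mem_preimage,
      mem_singleton_iff]
    constructor
    · rintro h ⟨m, hm, hmt⟩
      omega
    · intro h
      by_contra hcon
      exact h ⟨J n t, by omega, rfl⟩
  rw [h1, measureReal_compl (Finset.measurableSet_biUnion _ fun m _ => (hJm n) (measurableSet_singleton m)),
    measureReal_biUnion_finset]
  · simp_rw [hJp]
    have : ∑ m ∈ Finset.range (M + 1), (1 / 2 : ℝ) ^ (m + 1) = 1 - (1 / 2) ^ (M + 1) := by
      clear h1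
      induction M with
      | zero => norm_num
      | succ k ih => rw [Finset.sum_range_succ, ih]; ring
    rw [this]
    simp
  · intro a _ b _ hab
    exact (disjoint_singleton.2 hab).preimage (J n)
  · intro m _
    exact (hJm n) (measurableSet_singleton m)

include hJm hJi hJp in
lemma ff_tendsto (φ : X1 →L[ℝ] ℝ) :
    TendstoInMeasure volume (fun n t => φ (ff hJm n t)) atTop (fun _ => (0 : ℝ)) := by
  rw [tendstoInMeasure_iff_norm]
  intro ε hε
  rw [ENNReal.tendsto_nhds_zero]
  intro δ hδ
  obtain ⟨r, hr0, hrδ⟩ := ENNReal.lt_iff_exists_real_btwn.1 hδ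
  have hrpos : 0 < r := by
    by_contra hcon
    have := hrδ.1
    rw [ENNReal.ofReal_of_nonpos (not_lt.1 hcon)] at this
    exact lt_irrefl _ this
  obtain ⟨M, hM⟩ : ∃ M : ℕ, (1 / 2 : ℝ) ^ (M + 1) < r := by
    obtain ⟨M, hM⟩ := exists_pow_lt_of_lt_one hrpos (show (1 / 2 : ℝ) < 1 by norm_num)
    refine ⟨M, lt_of_le_of_lt ?_ hM⟩
    exact pow_le_pow_of_le_one (by norm_num) (by norm_num) (Nat.le_succ M)
  have hev : ∀ᶠ n in atTop, ∀ j ∈ Finset.range (M + 1), ‖φ (hh hJm n j)‖ < ε := by
    rw [Filter.eventually_all_finset]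
    intro j _
    have h1 := weak_null hJm hJi hJp (3 * j + 3) φ
    have h2 : Tendsto (fun n => φ (hh hJm n j)) atTop (𝓝 0) := by
      have := h1.const_mul (pr (3 * j + 3))⁻¹
      rw [mul_zero] at this
      refine this.congr fun n => ?_
      unfold hh
      rw [map_smul, smul_eq_mul]
    have h3 := h2.norm
    rw [norm_zero] at h3
    exact h3.eventually (gt_mem_nhds hε)
  filter_upwards [hev] with n hn
  have hsub : {t | ε ≤ ‖φ (ff hJm n t) - 0‖} ⊆ {t | M < J n t} := by
    intro t ht
    simp only [mem_ofPred_eq, sub_zero] at ht ⊢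
    by_contra hcon
    have := hn (J n t) (Finset.mem_range.2 (by omega))
    unfold ff at ht
    linarith
  calc volume {t | ε ≤ ‖φ (ff hJm n t) - 0‖} ≤ volume {t | M < J n t} := measure_mono hsub
    _ = ENNReal.ofReal ((volume : Measure I).real {t | M < J n t}) := by
        rw [ofReal_measureReal]
    _ = ENNReal.ofReal ((1 / 2) ^ (M + 1)) := by rw [tail hJm hJp]
    _ ≤ ENNReal.ofReal r := ENNReal.ofReal_le_ofReal hM.le
    _ ≤ δ := hrδ.2.le

/-- integration over a set, as a functional on `L¹` -/
noncomputable def phiG (G : Set I) : X1 →L[ℝ] ℝ :=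
  LinearMap.mkContinuous
    { toFun := fun h => ∫ s in G, h s
      map_add' := fun a b => by
        rw [← integral_add (L1.integrable_coeFn a).integrableOn (L1.integrable_coeFn b).integrableOn]
        exact integral_congr_ae (ae_restrict_of_ae (Lp.coeFn_add a b))
      map_smul' := fun c a => by
        simp only [RingHom.id_apply, smul_eq_mul]
        rw [← integral_const_mul]
        refine integral_congr_ae (ae_restrict_of_ae ?_)
        filter_upwards [Lp.coeFn_smul c a] with s h
        rw [h]; rfl } 1 (by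
    intro h
    simp only [LinearMap.coe_mk, AddHom.coe_mk]
    rw [one_mul, L1.norm_eq_integral_norm]
    refine (norm_integral_le_integral_norm _).trans ?_
    exact setIntegral_le_integral (L1.integrable_coeFn h).norm (Eventually.of_forall fun s => norm_nonneg _))

lemma phiG_apply (G : Set I) (h : X1) : phiG G h = ∫ s in G, h s := rfl

include hJp in
lemma phiG_ff (G : Set I) (hG : MeasurableSet G) (n j : ℕ) (hsub : ev J n (3 * j + 3) ⊆ G) :
    phiG G (hh hJm n j) = 1 - (volume : Measure I).real G := by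
  unfold hh
  rw [map_smul, smul_eq_mul, phiG_apply]
  have h1 : ∫ s in G, vv hJm n (3 * j + 3) s = ∫ s in G, (ind J n (3 * j + 3) s - pr (3 * j + 3)) :=
    integral_congr_ae (ae_restrict_of_ae (vv_coe hJm n _))
  rw [h1, integral_sub (ind_integrable hJm n _).integrableOn (integrable_const _)]
  have h2 : ∫ s in G, ind J n (3 * j + 3) s = pr (3 * j + 3) := by
    unfold ind
    rw [setIntegral_indicator (ev_meas hJm n _), inter_eq_right.2 hsub, setIntegral_const, smul_eq_mul, mul_one]
    exact hJp n _
  rw [h2, setIntegral_const, smul_eq_mul]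
  have hp := pr_pos (3 * j + 3)
  field_simp

end main

theorem not_propertyD : ¬ PropertyD ∞ X1 := by
  intro hD
  obtain ⟨J, hJm, hJi, hJp⟩ := exists_J
  obtain ⟨k, hk, hconv⟩ := hD (ff hJm) (fun n => (ff_meas hJm n).aestronglyMeasurable)
    ⟨2, fun n => by
      rw [eLpNorm_exponent_top]
      refine eLpNormEssSup_le_of_ae_nnnorm_bound (C := 2) (Eventually.of_forall fun t => ?_)
      have := ff_norm_le hJm hJp n t
      exact_mod_cast this⟩ (ff_tendsto hJm hJi hJp)
  -- blocks of indices
  set F : ℕ → Finset ℕ := fun j => (Finset.Ico j (j + 2 ^ (j + 2))).image k with hF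
  have hcard : ∀ j, (F j).card = 2 ^ (j + 2) := by
    intro j
    rw [hF]
    simp only
    rw [Finset.card_image_of_injective _ hk.injective, Nat.card_Ico, Nat.add_sub_cancel_left]
  set G : Set I := ⋃ j, ⋃ n ∈ F j, ev J n (3 * j + 3) with hG
  have hGm : MeasurableSet G := MeasurableSet.iUnion fun j =>
    Finset.measurableSet_biUnion _ fun n _ => ev_meas hJm n _
  have hGsmall : (volume : Measure I).real G ≤ 1 / 2 := by
    have h1 : volume G ≤ ∑' j, ENNReal.ofReal ((1 / 4) ^ (j + 1)) := by
      refine (measure_iUnion_le _).trans (ENNReal.tsum_le_tsum fun j => ?_)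
      refine (measure_biUnion_finset_le _ _).trans ?_
      have h2 : ∀ n ∈ F j, volume (ev J n (3 * j + 3)) = ENNReal.ofReal (pr (3 * j + 3)) := by
        intro n _
        have : (volume : Measure I).real (ev J n (3 * j + 3)) = pr (3 * j + 3) := hJp n _
        rw [← this, ofReal_measureReal]
      rw [Finset.sum_congr rfl h2, Finset.sum_const, hcard, nsmul_eq_mul]
      rw [← ENNReal.ofReal_natCast, ← ENNReal.ofReal_mul (by positivity)]
      apply ENNReal.ofReal_le_ofReal
      apply le_of_eq
      unfold pr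
      push_cast
      have e1 : (1 / 4 : ℝ) = (1 / 2) ^ 2 := by norm_num
      have e2 : (2 : ℝ) ^ (j + 2) * (1 / 2) ^ (j + 2) = 1 := by
        rw [← mul_pow]; norm_num
      have e3 : (3 * j + 3 + 1) = (j + 2) + 2 * (j + 1) := by ring
      rw [e3, pow_add (1 / 2 : ℝ), ← mul_assoc, e2, one_mul, e1, ← pow_mul]
    have h3 : ∑' j : ℕ, ENNReal.ofReal ((1 / 4) ^ (j + 1)) = ENNReal.ofReal (1 / 3) := by
      have hs : Summable fun j : ℕ => (1 / 4 : ℝ) ^ (j + 1) := by
        have := (summable_geometric_of_lt_one (r := (1 / 4 : ℝ)) (by norm_num) (by norm_num)).mul_right (1 / 4)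
        simpa [pow_succ] using this
      rw [← ENNReal.ofReal_tsum_of_nonneg (fun j => by positivity) hs]
      congr 1
      simp_rw [pow_succ]
      rw [tsum_mul_right, tsum_geometric_of_lt_one (by norm_num) (by norm_num)]
      norm_num
    rw [h3] at h1
    have h4 : (volume : Measure I).real G ≤ 1 / 3 := by
      rw [measureReal_def]
      exact ENNReal.toReal_le_of_le_ofReal (by norm_num) h1
    linarith
  -- the sets of good points
  set W : ℕ → Set I := fun j => ⋃ n ∈ F j, ev J n j with hW
  have hWc : ∀ j, (volume : Measure I).real (W j)ᶜ ≤ 1 / 2 := by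
    intro j
    apply union_half hJm hJi hJp j (F j)
    rw [hcard]
    unfold pr
    push_cast
    have e2 : (2 : ℝ) ^ (j + 1) * (1 / 2) ^ (j + 1) = 1 := by
      rw [← mul_pow]; norm_num
    have : (2 : ℝ) ^ (j + 2) * (1 / 2) ^ (j + 1) = 2 * ((2 : ℝ) ^ (j + 1) * (1 / 2) ^ (j + 1)) := by ring
    rw [this, e2]
    norm_num
  set B : ℕ → Set I := fun N => ⋂ j ≥ N, (W j)ᶜ with hB
  have hae : ∀ᵐ t : I, t ∈ ⋃ N, B N := by
    filter_upwards [hconv (phiG G)] with t ht
    have h1 : ∀ᶠ i in atTop, |phiG G (ff hJm (k i) t)| < 1 / 2 := by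
      have h2 := ht.abs
      rw [abs_zero] at h2
      exact h2.eventually (gt_mem_nhds (by norm_num))
    obtain ⟨N, hN⟩ := eventually_atTop.1 h1
    rw [mem_iUnion]
    refine ⟨N, ?_⟩
    rw [hB]
    simp only [mem_iInter, mem_compl_iff]
    intro j hj htW
    simp only [hW, mem_iUnion] at htW
    obtain ⟨n, hn, htn⟩ := htW
    have hn' := hn
    rw [hF] at hn'
    simp only [Finset.mem_image, Finset.mem_Ico] at hn'
    obtain ⟨i, hi, rfl⟩ := hn'
    have hJt : J (k i) t = j := htn
    have h3 := hN i (le_trans hj hi.1)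
    have h4 : phiG G (ff hJm (k i) t) = 1 - (volume : Measure I).real G := by
      unfold ff
      rw [hJt]
      apply phiG_ff hJm hJp G hGm
      intro s hs
      simp only [hG, mem_iUnion]
      exact ⟨j, k i, hn, hs⟩
    rw [h4, abs_lt] at h3
    linarith
  have hmeas1 : volume (⋃ N, B N) = 1 := by
    have := prob_compl_eq_zero_iff (μ := (volume : Measure I)) (s := ⋃ N, B N)
      (MeasurableSet.iUnion fun N => MeasurableSet.iInter fun j => MeasurableSet.iInter fun _ =>
        (Finset.measurableSet_biUnion _ fun n _ => ev_meas hJm n _).compl)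
    rw [← this]
    exact hae
  have hmono : Monotone B := by
    intro a b hab t ht
    simp only [hB, mem_iInter] at ht ⊢
    intro j hj
    exact ht j (le_trans hab hj)
  have hle : volume (⋃ N, B N) ≤ ENNReal.ofReal (1 / 2) := by
    rw [hmono.measure_iUnion]
    refine iSup_le fun N => ?_
    calc volume (B N) ≤ volume (W N)ᶜ := measure_mono (by
          intro t ht
          simp only [hB, mem_iInter] at ht
          exact ht N le_rfl)
      _ = ENNReal.ofReal ((volume : Measure I).real (W N)ᶜ) := by rw [ofReal_measureReal]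
      _ ≤ _ := ENNReal.ofReal_le_ofReal (hWc N)
  rw [hmeas1] at hle
  have : (1 : ℝ≥0∞) = ENNReal.ofReal 1 := by simp
  rw [this, ENNReal.ofReal_le_ofReal_iff (by norm_num)] at hle
  norm_num at hle

end Pool.Agent.H7.DInf
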